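import Pool.Agent.N949.PG.Def

/-!
Every Jordan curve is approximated by self-avoiding lattice polygons with constant speed
(project PG of helper949, job CYC, helper530; adapted from `Pool/Agent/N941/SP/Apx.lean`).
-/

set_option autoImplicit false

namespace Pool.Agent.N530.PG

open Pool.Agent.N941.SP
open Pool.Agent.N949.PG
open Pool.Agent.H122R3.SX (Adj V W)

theorem dia_norm' {Y : ℤ} {z : ℤ × ℤ} (h : dia Y z) : |z.1| + |z.2| ≤ Y := by
  unfold dia at h
  have h0 := abs_nonneg z.1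
  rcases abs_cases (2 * z.2 - Y) with h1 | h1 <;> rcases abs_cases z.2 with h2 | h2 <;> omega

theorem blk_norm {Y : ℤ} {q : ℕ} {d : ℕ → ℤ × ℤ} (hY : 0 ≤ Y) (h : Blk Y q d) {s : ℕ}
    (hs : s ≤ q) : |(d s).1| + |(d s).2| ≤ Y := by
  rcases Nat.eq_zero_or_pos s with h0 | h0
  · rw [h0, h.zero]
    simpa using hY
  · exact dia_norm' (h.dia s h0 hs)

theorem subst_close' {Y : ℤ} {L r : ℕ} {p : ℕ → ℤ × ℤ} {τ : ℕ → ℕ} {d : ℕ → ℕ → ℤ × ℤ}
    (hY : 0 ≤ Y) (hp : Lp L p) (hτ : StrictMono τ) (h0 : τ 0 = 0)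
    (hf : ∀ i < L, Fl Y (τ (i + 1) - τ i) (d i)) (hr : Blk Y r (d L))
    (hrL : τ L + r < τ (L + 1)) {k : ℕ} (hk : k ≤ τ L + r) :
    ‖pt (subst Y p τ d k) - (Y : ℂ) * pt (p (idx τ k))‖ ≤ Y := by
  obtain ⟨h1, h2⟩ := idx_spec hτ h0 k
  obtain ⟨i, hi⟩ : ∃ i, i = idx τ k := ⟨_, rfl⟩
  have hiL : i ≤ L := by rw [hi]; exact idx_le hτ h0 (by omega)
  rw [← hi] at h1 h2 ⊢
  have hd : |(d i (k - τ i)).1| + |(d i (k - τ i)).2| ≤ Y := by
    rcases Nat.lt_or_ge i L with h4 | h4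
    · exact blk_norm hY (hf i h4).blk (by omega)
    · have : i = L := by omega
      subst this
      exact blk_norm hY hr (by omega)
  unfold subst
  rw [← hi, pt_add, pt_sc, add_sub_cancel_left]
  refine (pt_norm_le _).trans ?_
  rw [rot_norm (hp.un i hiL)]
  exact_mod_cast hd

theorem cv_of_mem' (γ : C(unitInterval, ℂ)) {t : ℝ} (ht : t ∈ Set.Icc (0 : ℝ) 1) :
    cv γ t = γ ⟨t, ht⟩ := by
  unfold cv
  rw [Set.projIcc_of_mem zero_le_one ht]

/-- different times on a Jordan curve -/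
theorem sepJ {γ : C(unitInterval, ℂ)} (hγ : γ ∈ Jordan) {δ : ℝ} (hδ : 0 < δ) :
    ∃ ρ > 0, ∀ s t : unitInterval, ‖γ s - γ t‖ ≤ ρ →
      |(s : ℝ) - t| ≤ δ ∨ 1 - δ ≤ |(s : ℝ) - t| := by
  obtain ⟨g0, g1, ginj, -⟩ := hγ
  obtain ⟨K, hK⟩ : ∃ K : Set (unitInterval × unitInterval),
      K = {p | δ ≤ |(p.1 : ℝ) - p.2|} ∩ {p | |(p.1 : ℝ) - p.2| ≤ 1 - δ} := ⟨_, rfl⟩
  have hKc : IsCompact K := by
    rw [hK]
    apply IsClosed.isCompact
    apply IsClosed.inter
    · apply isClosed_le continuous_const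
      fun_prop
    · refine isClosed_le ?_ continuous_const
      fun_prop
  have hmem : ∀ s t : unitInterval, δ < |(s : ℝ) - t| → |(s : ℝ) - t| < 1 - δ → (s, t) ∈ K := by
    intro s t h1 h2
    rw [hK]
    exact ⟨h1.le, h2.le⟩
  rcases K.eq_empty_or_nonempty with h | h
  · refine ⟨1, one_pos, fun s t _ => ?_⟩
    by_contra hc
    push Not at hc
    have := hmem s t hc.1 hc.2
    rw [h] at this
    exact this
  · obtain ⟨p, hp, hmin⟩ := hKc.exists_isMinOn h
      (f := fun p : unitInterval × unitInterval => ‖γ p.1 - γ p.2‖) (by fun_prop)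
    have h0 : 0 < ‖γ p.1 - γ p.2‖ := by
      rw [norm_pos_iff, sub_ne_zero]
      intro h1
      rw [hK] at hp
      have hp1 : δ ≤ |(p.1 : ℝ) - p.2| := hp.1
      have hp2 : |(p.1 : ℝ) - p.2| ≤ 1 - δ := hp.2
      have h01 : (0 : unitInterval) ≠ 1 := zero_ne_one
      by_cases e1 : p.1 = 1 <;> by_cases e2 : p.2 = 1
      · rw [e1, e2, sub_self, abs_zero] at hp1
        linarith
      · rw [e1, g1, ← g0] at h1
        have h2 := ginj 0 p.2 h01 e2 h1
        rw [e1, ← h2] at hp2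
        norm_num at hp2
        linarith
      · rw [e2, g1, ← g0] at h1
        have h2 := ginj p.1 0 e1 h01 h1
        rw [e2, h2] at hp2
        norm_num at hp2
        linarith
      · have h2 := ginj p.1 p.2 e1 e2 h1
        rw [h2, sub_self, abs_zero] at hp1
        linarith
    refine ⟨‖γ p.1 - γ p.2‖ / 2, by positivity, fun s t hst => ?_⟩
    by_contra hc
    push Not at hc
    have h2 := hmin (hmem s t hc.1 hc.2)
    simp only [Set.mem_setOf_eq] at h2
    linarith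

theorem t_CYC : S_CYC := by
  intro γ hγ ε hε
  obtain ⟨δ0, hδ0, huc0⟩ := uc γ (half_pos hε)
  obtain ⟨δ, hδd⟩ : ∃ δ, δ = min (δ0 / 3) (1 / 16) := ⟨_, rfl⟩
  have hδ : 0 < δ := by rw [hδd]; positivity
  have hδ1 : δ ≤ δ0 / 3 := by rw [hδd]; exact min_le_left _ _
  have hδ2 : δ ≤ 1 / 16 := by rw [hδd]; exact min_le_right _ _
  obtain ⟨ρ, hρ, hsep⟩ := sepJ hγ hδ
  obtain ⟨M, hM⟩ : ∃ M : ℕ, M = ⌈8 / ρ⌉₊ + ⌈10 / ε⌉₊ + 1 := ⟨_, rfl⟩
  have hM1 : 1 ≤ M := by omega
  have hMr : (0 : ℝ) < M := by exact_mod_cast hM1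
  have hM8 : 8 / (M : ℝ) ≤ ρ := by
    rw [div_le_iff₀ hMr]
    have h1 := Nat.le_ceil (8 / ρ)
    have h2 : (⌈8 / ρ⌉₊ : ℝ) ≤ M := by
      exact_mod_cast (by omega : ⌈8 / ρ⌉₊ ≤ M)
    rw [div_le_iff₀ hρ] at h1
    nlinarith
  have hM10 : 10 ≤ ε * M := by
    have h1 := Nat.le_ceil (10 / ε)
    have h2 : (⌈10 / ε⌉₊ : ℝ) ≤ M := by
      exact_mod_cast (by omega : ⌈10 / ε⌉₊ ≤ M)
    rw [div_le_iff₀ hε] at h1
    nlinarith
  obtain ⟨δ1, hδ1p, huc1⟩ := uc γ (ε := 1 / M) (by positivity)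
  obtain ⟨N, hN⟩ : ∃ N : ℕ, N = ⌈1 / δ1⌉₊ + ⌈1 / δ⌉₊ + ⌈1 / ε⌉₊ + 16 := ⟨_, rfl⟩
  have hN1 : 16 ≤ N := by omega
  have hNr16 : (16 : ℝ) ≤ N := by exact_mod_cast hN1
  have hNr : (0 : ℝ) < N := by linarith
  have hNδ1 : 1 / (N : ℝ) ≤ δ1 := by
    rw [div_le_iff₀ hNr]
    have h1 := Nat.le_ceil (1 / δ1)
    have h2 : (⌈1 / δ1⌉₊ : ℝ) ≤ N := by
      exact_mod_cast (by omega : ⌈1 / δ1⌉₊ ≤ N)
    rw [div_le_iff₀ hδ1p] at h1
    nlinarith
  have hNδ : 1 / (N : ℝ) ≤ δ := by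
    rw [div_le_iff₀ hNr]
    have h1 := Nat.le_ceil (1 / δ)
    have h2 : (⌈1 / δ⌉₊ : ℝ) ≤ N := by
      exact_mod_cast (by omega : ⌈1 / δ⌉₊ ≤ N)
    rw [div_le_iff₀ hδ] at h1
    nlinarith
  have hNε : 1 / ε ≤ (N : ℝ) := by
    have h1 := Nat.le_ceil (1 / ε)
    have h2 : (⌈1 / ε⌉₊ : ℝ) ≤ N := by
      exact_mod_cast (by omega : ⌈1 / ε⌉₊ ≤ N)
    linarith
  have huc1' : ∀ s t : unitInterval, |(s : ℝ) - t| ≤ 1 / N → ‖γ s - γ t‖ ≤ 1 / M :=
    fun s t hst => huc1 s t (hst.trans hNδ1)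
  obtain ⟨q, hq⟩ : ∃ q, q = dis γ M N := ⟨_, rfl⟩
  have hqadj : ∀ k, q k = q (k + 1) ∨ Adj (q k) (q (k + 1)) := by
    rw [hq]; exact dis_adj hM1 (by omega) huc1'
  have hqclose : ∀ k : ℕ, ‖pt (q k) - M * cv γ ((k : ℝ) / (2 * N))‖ ≤ 4 := by
    rw [hq]; exact dis_close hM1 (by omega) huc1'
  have hcv0 : cv γ 0 = 0 := by
    rw [cv_of_mem' γ ⟨le_rfl, zero_le_one⟩]
    exact hγ.1
  have hcv1 : cv γ 1 = 0 := by
    rw [cv_of_mem' γ ⟨zero_le_one, le_rfl⟩]
    exact hγ.2.1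
  have hq0 : q 0 = 0 := by
    rw [hq]
    unfold dis
    norm_num [hcv0]
  have hq2N : q (2 * N) = 0 := by
    rw [hq]
    unfold dis
    have e1 : (2 * N + 1) / 2 = N := by omega
    have e2 : 2 * N / 2 = N := by omega
    rw [e1, e2, div_self hNr.ne', hcv1]
    norm_num
  have h2N : (0 : ℝ) < 2 * N := by positivity
  -- coincidences
  have hloop : ∀ a b : ℕ, a ≤ 2 * N → b ≤ 2 * N → q a = q b →
      |(a : ℝ) / (2 * N) - (b : ℝ) / (2 * N)| ≤ δ ∨
        1 - δ ≤ |(a : ℝ) / (2 * N) - (b : ℝ) / (2 * N)| := by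
    intro a b ha hb hab
    have m : ∀ c : ℕ, c ≤ 2 * N → (c : ℝ) / (2 * N) ∈ Set.Icc (0 : ℝ) 1 := by
      intro c hc
      refine ⟨by positivity, ?_⟩
      rw [div_le_one h2N]
      exact_mod_cast hc
    have h1 := hqclose a
    have h2 := hqclose b
    rw [← hab] at h2
    have h3 : ‖(M : ℂ) * (cv γ ((a : ℝ) / (2 * N)) - cv γ ((b : ℝ) / (2 * N)))‖ ≤ 8 := by
      have e : (M : ℂ) * (cv γ ((a : ℝ) / (2 * N)) - cv γ ((b : ℝ) / (2 * N))) =
          (pt (q a) - M * cv γ ((b : ℝ) / (2 * N))) - (pt (q a) - M * cv γ ((a : ℝ) / (2 * N))) := by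
        ring
      rw [e]
      exact (norm_sub_le _ _).trans (by linarith)
    rw [norm_mul, Complex.norm_natCast] at h3
    have h4 : ‖cv γ ((a : ℝ) / (2 * N)) - cv γ ((b : ℝ) / (2 * N))‖ ≤ ρ := by
      refine le_trans ?_ hM8
      rw [le_div_iff₀ hMr]
      linarith
    rw [cv_of_mem' γ (m a ha), cv_of_mem' γ (m b hb)] at h4
    exact hsep _ _ h4
  -- the same with natural numbers
  have hloop2 : ∀ a n : ℕ, a + n ≤ 2 * N → q a = q (a + n) →
      (n : ℝ) ≤ 2 * N * δ ∨ 2 * N * (1 - δ) ≤ n := by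
    intro a n h1 h2
    have h3 := hloop a (a + n) (by omega) h1 h2
    have e : |(a : ℝ) / (2 * N) - ((a + n : ℕ) : ℝ) / (2 * N)| = (n : ℝ) / (2 * N) := by
      rw [← sub_div, abs_div, abs_of_pos h2N]
      push_cast
      rw [show (a : ℝ) - (a + n) = -n by ring, abs_neg, abs_of_nonneg (Nat.cast_nonneg n)]
    rw [e] at h3
    rcases h3 with h3 | h3
    · left
      rw [div_le_iff₀ h2N] at h3
      linarith
    · right
      rw [le_div_iff₀ h2N] at h3
      linarith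
  -- the shortest macroscopic loop
  have hex : ∃ m, ∃ a, a + m ≤ 2 * N ∧ q a = q (a + m) ∧ N ≤ m := by
    refine ⟨2 * N, 0, by omega, ?_, by omega⟩
    rw [zero_add, hq0, hq2N]
  obtain ⟨m, ⟨a, ham, haq, hNm⟩, hmin⟩ : ∃ m, (∃ a, a + m ≤ 2 * N ∧ q a = q (a + m) ∧ N ≤ m) ∧
      ∀ m' a', a' + m' ≤ 2 * N → q a' = q (a' + m') → N ≤ m' → m ≤ m' := by
    classical
    exact ⟨Nat.find hex, Nat.find_spec hex, fun m' a' h1 h2 h3 => Nat.find_min' hex ⟨a', h1, h2, h3⟩⟩
  have hNmr : (N : ℝ) ≤ m := by exact_mod_cast hNm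
  have hm1 : 2 * (N : ℝ) * (1 - δ) ≤ m := by
    rcases hloop2 a m ham haq with h | h
    · nlinarith
    · exact h
  have hamr : (a : ℝ) + m ≤ 2 * N := by exact_mod_cast ham
  have hm2 : 15 / 8 * (N : ℝ) ≤ m := by nlinarith
  -- short loops
  have hshort : ∀ u n : ℕ, u + n ≤ 2 * N → q u = q (u + n) → n < m → (n : ℝ) ≤ 2 * N * δ := by
    intro u n h1 h2 h3
    rcases hloop2 u n h1 h2 with h | h
    · exact h
    · exfalso
      have h4 : (N : ℝ) ≤ n := by nlinarith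
      have h5 : N ≤ n := by exact_mod_cast h4
      have := hmin n u h1 h2 h5
      omega
  obtain ⟨ℓ, t, t00, t0, tℓ, tlt, tle, tq, tlast⟩ := loop_erase q (a + m - 1) _ a (by omega) rfl
  -- the starting time
  have ht0a : t 0 = a := by
    by_contra hne
    have h1 : a < t 0 := lt_of_le_of_ne t00 fun h => hne h.symm
    have h2 := tle 0 (Nat.zero_le _)
    have h3 := hshort a (t 0 - a) (by omega) (by rw [show a + (t 0 - a) = t 0 by omega, t0])
      (by omega)
    have h4 := hmin (m - (t 0 - a)) (t 0) (by omega) (by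
      rw [show t 0 + (m - (t 0 - a)) = a + m by omega, t0, haq]) (by
      have h5 : (N : ℝ) ≤ (m : ℝ) - ((t 0 - a : ℕ) : ℝ) := by nlinarith
      have h6 : t 0 - a ≤ m := by omega
      rw [← Nat.cast_sub h6] at h5
      exact_mod_cast h5)
    omega
  have htm : ∀ i j, i < j → j ≤ ℓ → t i < t j := by
    intro i j hij
    induction j, hij using Nat.le_induction with
    | base => intro h; exact tlt i (by omega)
    | succ j hj ih => intro h; exact (ih (by omega)).trans (tlt j (by omega))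
  have hta : ∀ i ≤ ℓ, a ≤ t i := by
    intro i hi
    rcases Nat.eq_zero_or_pos i with h | h
    · rw [h, ht0a]
    · have := htm 0 i h hi
      omega
  have hgapN : ∀ i < ℓ, ((t (i + 1) : ℕ) : ℝ) ≤ ((t i : ℕ) : ℝ) + 1 + 2 * N * δ := by
    intro i hi
    have h1 := tlt i hi
    have h2 := tle (i + 1) (by omega)
    have h3 := hta i (by omega)
    have h4 := hshort (t i + 1) (t (i + 1) - (t i + 1)) (by omega) (by
      rw [show t i + 1 + (t (i + 1) - (t i + 1)) = t (i + 1) by omega]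
      exact tq i hi) (by omega)
    rw [Nat.cast_sub (by omega)] at h4
    push_cast at h4
    linarith
  have hgap : ∀ i < ℓ, ((t (i + 1) : ℕ) : ℝ) / (2 * N) - ((t i : ℕ) : ℝ) / (2 * N) ≤ 2 * δ := by
    intro i hi
    have h1 := hgapN i hi
    rw [← sub_div, div_le_iff₀ h2N]
    have h3 : 1 ≤ δ * N := by
      rw [div_le_iff₀ hNr] at hNδ
      exact hNδ
    nlinarith
  have hℓ : 2 ≤ ℓ := by
    by_contra hc
    have hδN : 2 * (N : ℝ) * δ ≤ N / 8 := by nlinarith
    have h5 : ((a + m - 1 : ℕ) : ℝ) = (a : ℝ) + m - 1 := by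
      rw [Nat.cast_sub (by omega)]
      push_cast
      ring
    interval_cases ℓ
    · have h1 : a + m - 1 = a := by rw [← tℓ, ht0a]
      have : m ≤ 1 := by omega
      have : N ≤ 1 := by omega
      omega
    · have h1 := hgapN 0 (by omega)
      rw [zero_add, tℓ, ht0a, h5] at h1
      linarith
  obtain ⟨p, hp⟩ : ∃ p : ℕ → ℤ × ℤ, p = fun i => if i ≤ ℓ then q (t i) else q a := ⟨_, rfl⟩
  have hpi : ∀ i ≤ ℓ, p i = q (t i) := by
    intro i hi
    rw [hp]
    exact if_pos hi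
  have hpℓ : p (ℓ + 1) = q a := by
    rw [hp]
    exact if_neg (by omega)
  have hp0 : p 0 = q a := by rw [hpi 0 (Nat.zero_le _), ht0a]
  have hpinj : ∀ i ≤ ℓ, ∀ j ≤ ℓ, p i = p j → i = j := by
    have main : ∀ i j, i < j → j ≤ ℓ → p i ≠ p j := by
      intro i j hij hj h
      rw [hpi i (by omega), hpi j hj] at h
      exact tlast i (by omega) (t j) (htm i j hij hj) (tle j hj) h.symm
    intro i hi j hj h
    rcases Nat.lt_trichotomy i j with h1 | h1 | h1
    · exact absurd h (main i j h1 hj)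
    · exact h1
    · exact absurd h.symm (main j i h1 hi)
  have hpadj : ∀ i ≤ ℓ, Adj (p i) (p (i + 1)) := by
    intro i hi
    rcases Nat.lt_or_ge i ℓ with hi' | hi'
    · rw [hpi i hi, hpi (i + 1) (by omega), ← tq i hi']
      rcases hqadj (t i) with h1 | h1
      · exfalso
        have := tlt i hi'
        have := tle (i + 1) (by omega)
        exact tlast i hi'.le (t i + 1) (by omega) (by omega) h1.symm
      · exact h1
    · have h1 : i = ℓ := by omega
      subst h1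
      rw [hpi i le_rfl, hpℓ, tℓ, haq]
      have h2 := hqadj (a + m - 1)
      rw [show a + m - 1 + 1 = a + m by omega] at h2
      rcases h2 with h2 | h2
      · exfalso
        have h3 := hmin (m - 1) a (by omega) (by
          rw [show a + (m - 1) = a + m - 1 by omega, h2]
          exact haq) (by
          have h4 : (N : ℝ) ≤ (m : ℝ) - ((1 : ℕ) : ℝ) := by
            push_cast
            linarith
          have h6 : 1 ≤ m := by omega
          rw [← Nat.cast_sub h6] at h4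
          exact_mod_cast h4)
        omega
      · exact h2
  have hlp : Lp ℓ p := by
    have hun : ∀ i ≤ ℓ, Un (p (i + 1) - p i) := fun i hi => (adj_iff_un _ _).1 (hpadj i hi)
    refine ⟨hun, hpinj, ?_⟩
    have main : ∀ i j, i < j → j ≤ ℓ → p i + p (i + 1) ≠ p j + p (j + 1) := by
      intro i j hij hj h
      have h1 := hun i (by omega)
      have h2 := hun j hj
      have h3 : p i + (p i + (p (i + 1) - p i)) = p j + (p j + (p (j + 1) - p j)) := by
        rw [add_sub_cancel, add_sub_cancel]; exact h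
      rcases edge_eq h1 h2 h3 with h4 | ⟨h4, h5⟩
      · have := hpinj i (by omega) j hj h4
        omega
      · rw [add_sub_cancel] at h4 h5
        have h6 := hpinj j hj (i + 1) (by omega) h4
        rcases Nat.lt_or_ge j ℓ with hjl | hjl
        · have := hpinj i (by omega) (j + 1) (by omega) h5
          omega
        · have h7 : j = ℓ := by omega
          rw [h7, hpℓ, ← hp0] at h5
          have := hpinj i (by omega) 0 (by omega) h5
          omega
    intro i hi j hj h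
    rcases Nat.lt_trichotomy i j with h1 | h1 | h1
    · exact absurd h (main i j h1 hj)
    · exact h1
    · exact absurd h.symm (main j i h1 hi)
  -- the times
  obtain ⟨B, hB⟩ : ∃ B : ℕ, B = 8 * (5 * N) + 2 := ⟨_, rfl⟩
  have hB1 : 1 ≤ B := by omega
  have hBr : (1 : ℝ) ≤ B := by exact_mod_cast hB1
  obtain ⟨tt, htt⟩ : ∃ tt : ℕ → ℕ, tt = fun i => if i = 0 then 0 else if i ≤ ℓ then t i else
    2 * N + (i - (ℓ + 1)) := ⟨_, rfl⟩
  have tt0 : tt 0 = 0 := by rw [htt]; simp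
  have tti : ∀ i, 1 ≤ i → i ≤ ℓ → tt i = t i := by
    intro i h1 h2
    rw [htt]
    simp only
    rw [if_neg (by omega), if_pos h2]
  have ttle : ∀ i ≤ ℓ, tt i ≤ t i := by
    intro i hi
    rcases Nat.eq_zero_or_pos i with h | h
    · rw [h, tt0]; exact Nat.zero_le _
    · rw [tti i h hi]
  have ttℓ : tt (ℓ + 1) = 2 * N := by
    rw [htt]
    simp only
    rw [if_neg (by omega), if_neg (by omega)]
    omega
  have ttm : StrictMono tt := by
    apply strictMono_nat_of_lt_succ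
    intro i
    rcases Nat.lt_or_ge i ℓ with h | h
    · rw [tti (i + 1) (by omega) (by omega)]
      exact lt_of_le_of_lt (ttle i h.le) (tlt i h)
    · rcases Nat.eq_or_lt_of_le h with h1 | h1
      · rw [← h1, ttℓ, tti ℓ (by omega) le_rfl, tℓ]
        omega
      · rw [htt]
        simp only
        rw [if_neg (by omega), if_neg (by omega), if_neg (by omega), if_neg (by omega)]
        omega
  obtain ⟨τ, hτd⟩ : ∃ τ : ℕ → ℕ, τ = fun i => B * tt i := ⟨_, rfl⟩
  have hτ : StrictMono τ := by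
    rw [hτd]
    intro i j hij
    exact Nat.mul_lt_mul_of_pos_left (ttm hij) (by omega)
  have hτ0 : τ 0 = 0 := by rw [hτd]; simp [tt0]
  have hτℓ : τ (ℓ + 1) = B * (2 * N) := by rw [hτd]; simp only [ttℓ]
  -- the wiggles
  have hwig : ∀ i ≤ ℓ, ∃ w : W, Dm (B : ℤ) w ∧ w.length = τ (i + 1) - τ i := by
    intro i hi
    have h1 := ttm (Nat.lt_add_one i)
    have h2 : tt (i + 1) ≤ 2 * N := by
      rw [← ttℓ]
      exact ttm.monotone (by omega)
    obtain ⟨g, hg⟩ : ∃ g, g = tt (i + 1) - tt i - 1 := ⟨_, rfl⟩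
    obtain ⟨w, hw, hl⟩ := exists_wiggle (a := 5 * N) (E := (4 * (5 * N) + 1) * g) (by omega) (by
      have h3 : g ≤ 2 * N := by omega
      calc (4 * (5 * N) + 1) * g ≤ (5 * (5 * N)) * (2 * N) := by
            apply Nat.mul_le_mul _ h3
            omega
        _ = _ := by ring)
    refine ⟨w, ?_, ?_⟩
    · rw [hB]; exact hw
    · rw [hl, hτd]
      simp only
      rw [← Nat.mul_sub, show tt (i + 1) - tt i = g + 1 by omega, hB]
      ring
  choose! w hw hwl using hwig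
  obtain ⟨d, hd⟩ : ∃ d : ℕ → ℕ → ℤ × ℤ, d = fun i s => V ((w i).take s) := ⟨_, rfl⟩
  have hBz : (1 : ℤ) ≤ B := by exact_mod_cast hB1
  have hf' : ∀ i ≤ ℓ, Fl (B : ℤ) (τ (i + 1) - τ i) (d i) := by
    intro i hi
    rw [← hwl i hi, hd]
    exact (hw i hi).fl hBz
  have hf : ∀ i < ℓ, Fl (B : ℤ) (τ (i + 1) - τ i) (d i) := fun i hi => hf' i hi.le
  have hdz : ∀ i, d i 0 = 0 := by
    intro i
    rw [hd]
    simp [V]
  obtain ⟨r, hrd⟩ : ∃ r, r = τ (ℓ + 1) - τ ℓ - 1 := ⟨_, rfl⟩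
  have hr : Blk (B : ℤ) r (d ℓ) := by
    rw [hrd]
    exact (hf' ℓ le_rfl).blk
  have hτlt := hτ (Nat.lt_add_one ℓ)
  have hrL : τ ℓ + r < τ (ℓ + 1) := by omega
  have hrL' : τ ℓ + r + 1 = B * (2 * N) := by omega
  obtain ⟨L, hL⟩ : ∃ L, L = B * (2 * N) := ⟨_, rfl⟩
  have hLpos : 0 < L := by
    rw [hL]
    exact Nat.mul_pos (by omega) (by omega)
  have hLr : (0 : ℝ) < (L : ℝ) := by exact_mod_cast hLpos
  have hLe : (L : ℝ) = B * (2 * N) := by rw [hL]; push_cast; ring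
  obtain ⟨P, hP⟩ : ∃ P : ℕ → ℤ × ℤ, P = fun k => if k < L then subst B p τ d k else
    sc B (p 0) := ⟨_, rfl⟩
  have hPk : ∀ k < L, P k = subst B p τ d k := by
    intro k hk
    rw [hP]
    exact if_pos hk
  have hP0 : P 0 = sc B (p 0) := by
    have h1 := subst_tau (Y := (B : ℤ)) (p := p) (τ := τ) (d := d) hτ hτ0 (i := 0) (hdz 0)
    rw [hτ0] at h1
    rw [hPk 0 hLpos, h1]
  have hPL : P L = P 0 := by
    rw [hP0, hP]
    exact if_neg (by omega)
  have hBr0 : (0 : ℝ) < B := by linarith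
  -- closeness
  have hclose : ∀ k < L, ‖pt (P k) - ((M : ℝ) * (B : ℝ) : ℝ) * cv γ ((k : ℝ) / L)‖ ≤
      ε * ((M : ℝ) * B) := by
    intro k hk
    rw [hPk k hk]
    have h1 := subst_close' (by omega : (0 : ℤ) ≤ B) hlp hτ hτ0 hf hr hrL (k := k) (by omega)
    obtain ⟨i, hi⟩ : ∃ i, i = idx τ k := ⟨_, rfl⟩
    obtain ⟨h2, h3⟩ := idx_spec hτ hτ0 k
    rw [← hi] at h1 h2 h3
    have hiℓ : i ≤ ℓ := by rw [hi]; exact idx_le hτ hτ0 (by omega)
    rw [hpi i hiℓ] at h1
    have h4 := hqclose (t i)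
    -- time comparison
    have h5 : |((t i : ℕ) : ℝ) / (2 * N) - (k : ℝ) / (L : ℝ)| ≤ δ0 := by
      have e1 : ((tt i : ℕ) : ℝ) / (2 * N) ≤ (k : ℝ) / (L : ℝ) := by
        rw [div_le_div_iff₀ h2N hLr, hLe]
        have h6 : B * tt i ≤ k := by rw [hτd] at h2; exact h2
        have h7 : (B : ℝ) * (tt i : ℕ) ≤ k := by exact_mod_cast h6
        nlinarith
      have e2 : ((t i : ℕ) : ℝ) / (2 * N) - ((tt i : ℕ) : ℝ) / (2 * N) ≤ δ := by
        rcases Nat.eq_zero_or_pos i with h | h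
        · rw [h, tt0, Nat.cast_zero, zero_div, sub_zero, ht0a, div_le_iff₀ h2N]
          nlinarith
        · rw [tti i h hiℓ, sub_self]
          exact hδ.le
      have e3 : (k : ℝ) / (L : ℝ) - ((t i : ℕ) : ℝ) / (2 * N) ≤ 2 * δ := by
        rcases Nat.lt_or_ge i ℓ with h | h
        · have h6 : (k : ℝ) / (L : ℝ) ≤ ((t (i + 1) : ℕ) : ℝ) / (2 * N) := by
            rw [div_le_div_iff₀ hLr h2N, hLe]
            have h7 : k < B * tt (i + 1) := by rw [hτd] at h3; exact h3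
            rw [tti (i + 1) (by omega) (by omega)] at h7
            have h8 : (k : ℝ) ≤ (B : ℝ) * (t (i + 1) : ℕ) := by exact_mod_cast h7.le
            nlinarith
          have := hgap i h
          linarith
        · have h9 : i = ℓ := by omega
          rw [h9, tℓ]
          have h6 : (k : ℝ) / (L : ℝ) ≤ 1 := by
            rw [div_le_one hLr]
            exact_mod_cast hk.le
          have h10 : 1 - 2 * δ ≤ ((a + m - 1 : ℕ) : ℝ) / (2 * N) := by
            rw [le_div_iff₀ h2N, Nat.cast_sub (by omega)]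
            push_cast
            have h11 : 1 ≤ δ * N := by
              rw [div_le_iff₀ hNr] at hNδ
              exact hNδ
            have h12 : (0 : ℝ) ≤ a := Nat.cast_nonneg a
            nlinarith
          linarith
      rw [abs_le]
      constructor <;> linarith
    have h6 := cv_close huc0 h5
    have e : pt (subst B p τ d k) - ((M : ℝ) * (B : ℝ) : ℝ) *
        cv γ ((k : ℝ) / (L : ℝ)) =
        (pt (subst B p τ d k) - ((B : ℤ) : ℂ) * pt (q (t i))) +
        (B : ℂ) * (pt (q (t i)) - M * cv γ (((t i : ℕ) : ℝ) / (2 * N))) +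
        (B : ℂ) * (M * (cv γ (((t i : ℕ) : ℝ) / (2 * N)) -
          cv γ ((k : ℝ) / (L : ℝ)))) := by
      push_cast
      ring
    rw [e]
    refine (norm_add₃_le).trans ?_
    rw [norm_mul, norm_mul, norm_mul, Complex.norm_natCast, Complex.norm_natCast]
    have h7 : (B : ℝ) * ‖pt (q (t i)) - M * cv γ (((t i : ℕ) : ℝ) / (2 * N))‖ ≤ B * 4 := by gcongr
    have h8 : (B : ℝ) * (M * ‖cv γ (((t i : ℕ) : ℝ) / (2 * N)) -
          cv γ ((k : ℝ) / (L : ℝ))‖) ≤ B * (M * (ε / 2)) := by gcongr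
    have h9 : ‖pt (subst B p τ d k) - ((B : ℤ) : ℂ) * pt (q (t i))‖ ≤ (B : ℝ) := by
      exact_mod_cast h1
    nlinarith
  refine ⟨L, M * B, P, ?_, ?_, ?_, hPL, ?_, ?_, ?_⟩
  · rw [hL]
    calc 4 ≤ 1 * (2 * N) := by omega
      _ ≤ B * (2 * N) := Nat.mul_le_mul_right _ hB1
  · have h1 : 1 / ε ≤ M := by
      rw [div_le_iff₀ hε]
      nlinarith
    nlinarith
  · rw [hLe]
    nlinarith
  · intro k hk
    rw [hPk k hk]
    rcases Nat.lt_or_ge (k + 1) L with h | h
    · rw [hPk (k + 1) h]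
      exact subst_adj hlp hτ hτ0 hf hr hrL (by omega)
    · have h1 : k + 1 = L := by omega
      rw [h1, hPL, hP0]
      have hi' : idx τ k = ℓ := idx_eq hτ hτ0 (by omega) (by omega)
      unfold subst
      rw [hi']
      have e3 : sc (B : ℤ) (p 0) = sc B (p ℓ) + rot (p (ℓ + 1) - p ℓ) (0, (B : ℤ)) := by
        rw [rot_top, hpℓ, ← hp0]
        unfold sc
        ext
        · simp only [Prod.fst_add, Prod.fst_sub]; ring
        · simp only [Prod.snd_add, Prod.snd_sub]; ring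
      have e2 : k - τ ℓ = (τ (ℓ + 1) - τ ℓ) - 1 := by omega
      rw [e3, e2]
      exact adj_rot (hlp.un ℓ le_rfl) _ (hf' ℓ le_rfl).last
  · intro k hk k' hk' h
    rw [hPk k hk, hPk k' hk'] at h
    exact subst_inj hBz hlp hτ hτ0 hf hr hrL (by omega) (by omega) h
  · intro k hk
    rcases Nat.lt_or_ge k L with h | h
    · exact hclose k h
    · have h1 : k = L := by omega
      rw [h1, hPL, div_self hLr.ne', hcv1, ← hcv0]
      have h2 := hclose 0 hLpos
      rw [Nat.cast_zero, zero_div] at h2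
      exact h2

end Pool.Agent.N530.PG
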